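import Pool.Agent.Helper60.FF.StmtsC

/-!
# Birational sections over function fields: L5A

Quotients of values of `χ τ` on a good disc are analytic.
-/

set_option autoImplicit false

namespace Pool.Agent.Helper60.FF

open Polynomial

section l5a

variable {p : ℕ} [hp : Fact p.Prime]

theorem l5a_tsum (g : ℕ → ℂ_[p]) (h0 : g 0 = 1) (h1 : ∀ k, ‖g k‖ ≤ 1) (y : ℂ_[p])
    (hy : ‖y‖ < 1) : ‖(∑' k, g k * y ^ k) - 1‖ < 1 := by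
  have hb : ∀ k, ‖g k * y ^ k‖ ≤ ‖y‖ ^ k := by
    intro k
    rw [norm_mul, norm_pow]
    exact mul_le_of_le_one_left (pow_nonneg (norm_nonneg y) k) (h1 k)
  have hs : Summable fun k => g k * y ^ k :=
    Summable.of_norm_bounded (summable_geometric_of_lt_one (norm_nonneg y) hy) hb
  have h2 : (∑' k, g k * y ^ k) - 1 = ∑' k, g (k + 1) * y ^ (k + 1) := by
    rw [hs.tsum_eq_zero_add, h0, pow_zero, one_mul]
    ring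
  rw [h2]
  refine lt_of_le_of_lt ?_ hy
  refine IsUltrametricDist.norm_tsum_le_of_forall_le_of_nonneg (norm_nonneg y) ?_
  intro k
  refine (hb (k + 1)).trans ?_
  rw [pow_succ]
  exact mul_le_of_le_one_left (norm_nonneg y) (pow_le_one₀ (norm_nonneg y) hy.le)

theorem l5a_unit (g : ℕ → ℂ_[p]) (h0 : g 0 = 1) (h1 : ∀ k, ‖g k‖ ≤ 1) (y : ℂ_[p])
    (hy : ‖y‖ < 1) : ‖∑' k, g k * y ^ k‖ = 1 ∧ res (∑' k, g k * y ^ k) = 1 := by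
  have h := l5a_tsum g h0 h1 y hy
  have hG : ‖∑' k, g k * y ^ k‖ ≤ 1 := by
    have h3 : ‖((∑' k, g k * y ^ k) - 1) + 1‖ ≤
        max ‖(∑' k, g k * y ^ k) - 1‖ ‖(1 : ℂ_[p])‖ := PadicComplex.isNonarchimedean p _ _
    rw [sub_add_cancel] at h3
    exact h3.trans (max_le h.le norm_one.le)
  have hr : res (∑' k, g k * y ^ k) = 1 := by
    rw [← res_one, res_eq_iff hG norm_one.le]
    exact h
  refine ⟨(norm_eq_one_iff hG).2 ?_, hr⟩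
  rw [hr]
  exact one_ne_zero

theorem l5a_mono {A : Subfield ℂ_[p]} {E E' : IntermediateField ℚ_[p] ℂ_[p]} (h : E ≤ E')
    {c : RatFunc A} (hc : Ov A E c) : Ov A E' c := by
  obtain ⟨P, Q, h1, h2, h3, h4⟩ := hc
  exact ⟨P, Q, h1, fun j => h (h2 j), fun j => h (h3 j), h4⟩

theorem l5a_nat (hOVF : ST_OVF) (A : Subfield ℂ_[p]) (E : IntermediateField ℚ_[p] ℂ_[p]) (i : ℕ) :
    Ov A E ((i : ℕ) : RatFunc A) := by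
  obtain ⟨F, hF⟩ := hOVF p A E
  exact (hF _).1 (natCast_mem F i)

theorem l5a_div (hOVF : ST_OVF) (A : Subfield ℂ_[p]) (E : IntermediateField ℚ_[p] ℂ_[p])
    {c d : RatFunc A} (hc : Ov A E c) (hd : Ov A E d) : Ov A E (c / d) := by
  obtain ⟨F, hF⟩ := hOVF p A E
  exact (hF _).1 (div_mem ((hF _).2 hc) ((hF _).2 hd))

theorem l5a_ord (hORD : ST_ORD) (A : Subfield ℂ_[p]) (v : A) (g h : RatFunc A) (hg : g ≠ 0)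
    (hh : h ≠ 0) : ordv A v (g / h) = ordv A v g - ordv A v h := by
  rw [div_eq_mul_inv, (hORD p A).1 v g h⁻¹ hg (inv_ne_zero hh), (hORD p A).2.1 v h hh]
  ring

theorem l5a_step (hL4 : ST_L4) (hSPL : ST_SPL) (hEVH : ST_EVH) (hORD : ST_ORD) (hOVF : ST_OVF)
    {n : ℕ} (hPP : PP p n) (K : KD p n) (a ϖ : K.A) (φ : Polynomial (RF p)) (hϖ : ϖ ≠ 0)
    (hGD : GD K a ‖(ϖ : ℂ_[p])‖ φ) (E : IntermediateField ℚ_[p] ℂ_[p])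
    (hfin : FiniteDimensional ℚ_[p] E) (hE₀ : K.E₀ ≤ E) (haE : (a : ℂ_[p]) ∈ E)
    (hϖE : (ϖ : ℂ_[p]) ∈ E) (i j : ℕ) (hi : φ.eval (i : RF p) ≠ 0) (hj : φ.eval (j : RF p) ≠ 0)
    (m : ℕ) (hm : 0 < m) :
    ∃ (κ : ℂ_[p]) (g : ℕ → ℂ_[p]), κ ∈ E ∧ κ ≠ 0 ∧ g 0 = 1 ∧ (∀ k, g k ∈ E ∧ ‖g k‖ ≤ 1) ∧
      ∀ E' : IntermediateField ℚ_[p] ℂ_[p], FiniteDimensional ℚ_[p] E' → E ≤ E' → ∀ τ ∈ E',
        τ ∉ K.A → ‖τ - a‖ < ‖(ϖ : ℂ_[p])‖ → (K.χ τ).eval (i : ℂ_[p]) ≠ 0 →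
        (K.χ τ).eval (j : ℂ_[p]) ≠ 0 → ∃ W ∈ E', W ≠ 0 ∧
          (K.χ τ).eval (i : ℂ_[p]) = κ * (∑' k, g k * ((τ - a) / ϖ) ^ k) * W ^ m *
            (K.χ τ).eval (j : ℂ_[p]) := by
  have hHi : K.H m ((i : ℕ) : RatFunc K.A) ≠ 0 := K.H0 m _ hm
  have hHj : K.H m ((j : ℕ) : RatFunc K.A) ≠ 0 := K.H0 m _ hm
  have hh0 : K.H m ((i : ℕ) : RatFunc K.A) / K.H m ((j : ℕ) : RatFunc K.A) ≠ 0 :=
    div_ne_zero hHi hHj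
  have hOv : Ov K.A E (K.H m ((i : ℕ) : RatFunc K.A) / K.H m ((j : ℕ) : RatFunc K.A)) :=
    l5a_div hOVF K.A E (K.Hdef E hfin hE₀ m _ hm (l5a_nat hOVF K.A E i))
      (K.Hdef E hfin hE₀ m _ hm (l5a_nat hOVF K.A E j))
  have hcast : ∀ i : ℕ, φ.eval (i : RF p) ≠ 0 →
      φ.eval (res (((i : K.A) : K.A) : ℂ_[p])) ≠ 0 := by
    intro i hi
    have h1 : (((i : K.A) : K.A) : ℂ_[p]) = (i : ℂ_[p]) := map_natCast K.A.subtype i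
    rw [h1, res_natCast]
    exact hi
  have hnorm : ∀ i : ℕ, ‖(((i : K.A) : K.A) : ℂ_[p])‖ ≤ 1 := by
    intro i
    have h1 : (((i : K.A) : K.A) : ℂ_[p]) = (i : ℂ_[p]) := map_natCast K.A.subtype i
    rw [h1]
    exact (mem_OO _).1 (natCast_mem (OO p) i)
  have hdiv : ∀ v : K.A, ‖(v : ℂ_[p]) - a‖ < ‖(ϖ : ℂ_[p])‖ → (m : ℤ) ∣
      ordv K.A v (K.H m ((i : ℕ) : RatFunc K.A) / K.H m ((j : ℕ) : RatFunc K.A)) := by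
    intro v hv
    rw [l5a_ord hORD K.A v _ _ hHi hHj]
    have h1 := hL4 p n hPP K v ‖(ϖ : ℂ_[p])‖ φ hGD.1
      (fun ϖ' h1 h2 => hGD.2.2.2 v ϖ' hv h1 h2) (i : K.A) (j : K.A) (hnorm i) (hnorm j)
      (hcast i hi) (hcast j hj) m hm
    rw [map_natCast, map_natCast] at h1
    exact h1
  obtain ⟨κ, g, U, hκE, hκ0, hg0, hgk, hU0, hUE, hU⟩ :=
    hSPL p K.A K.acl K.alg E hfin a ϖ haE hϖE hϖ m _ hm hh0 hOv hdiv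
  refine ⟨κ, g, hκE, hκ0, hg0, hgk, ?_⟩
  intro E' hfin' hEE' τ hτE hτA hτ hxi hxj
  obtain ⟨e, he, heX, heC, heP, heE⟩ := hEVH p K.A K.acl τ hτA
  have hnat : ∀ i : ℕ, ev K.A τ ((i : ℕ) : RatFunc K.A) = (i : ℂ_[p]) := by
    intro i
    rw [← he, map_natCast]
  obtain ⟨w, hwE, hw0, hw⟩ := K.kum E' hfin' (hE₀.trans hEE') ((i : ℕ) : RatFunc K.A)
    ((j : ℕ) : RatFunc K.A) (l5a_nat hOVF K.A E' i) (l5a_nat hOVF K.A E' j) τ hτE hτA m hm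
    (by rw [hnat]; exact hxi) (by rw [hnat]; exact hxj)
  rw [hnat, hnat] at hw
  have hUτ := hU τ hτA hτ
  rw [← he, ← he, map_div₀] at hUτ
  rw [← he, ← he] at hw
  have hej : e (K.H m ((j : ℕ) : RatFunc K.A)) ≠ 0 := (map_ne_zero e).2 hHj
  refine ⟨e U * w, mul_mem (heE E' hτE U (l5a_mono hEE' hUE)) hwE,
    mul_ne_zero ((map_ne_zero e).2 hU0) hw0, ?_⟩
  rw [mul_pow]
  have h5 : (K.χ τ).eval (i : ℂ_[p]) = (K.χ τ).eval (j : ℂ_[p]) *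
      (e (K.H m ((i : ℕ) : RatFunc K.A)) / e (K.H m ((j : ℕ) : RatFunc K.A))) * w ^ m := by
    field_simp
    rw [hw]
  rw [h5, hUτ]
  ring

theorem l5a_point (hEXI : ST_EXI) (hRAMX : ST_RAMX) (hRFA : ST_RFA)
    {n : ℕ} (hPP : PP p n) (K : KD p n) (a ϖ : K.A) (φ : Polynomial (RF p)) (hϖ : ϖ ≠ 0)
    (hGD : GD K a ‖(ϖ : ℂ_[p])‖ φ) (E : IntermediateField ℚ_[p] ℂ_[p])
    (hE₀ : K.E₀ ≤ E) (haE : (a : ℂ_[p]) ∈ E)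
    (hϖE : (ϖ : ℂ_[p]) ∈ E) (π : ℂ_[p]) (hπA : π ∈ K.A) (f : ℕ) (hLF : LF E π f) :
    ∃ (E' : IntermediateField ℚ_[p] ℂ_[p]) (π' : ℂ_[p]) (f' : ℕ), LF E' π' f' ∧ E ≤ E' ∧
      ‖π'‖ ^ (4 * n + 2) = ‖π‖ ∧ ∃ τ ∈ E', τ ∉ K.A ∧ ‖τ - a‖ < ‖(ϖ : ℂ_[p])‖ ∧
        Red (K.χ τ) φ := by
  have hπ0 : π ≠ 0 := norm_pos_iff.1 hLF.pos
  have hϖ0 : (ϖ : ℂ_[p]) ≠ 0 := fun h => hϖ (Subtype.ext h)
  have hϖπ0 : ϖ * (⟨π, hπA⟩ : K.A) ≠ 0 :=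
    mul_ne_zero hϖ (fun h => hπ0 (congrArg Subtype.val h))
  have hc : ((ϖ * (⟨π, hπA⟩ : K.A) : K.A) : ℂ_[p]) = (ϖ : ℂ_[p]) * π := rfl
  have hlt : ‖(ϖ : ℂ_[p]) * π‖ < ‖(ϖ : ℂ_[p])‖ := by
    rw [norm_mul]
    exact mul_lt_of_lt_one_right (norm_pos_iff.2 hϖ0) hLF.lt
  have hCT : CT K a ((ϖ * (⟨π, hπA⟩ : K.A) : K.A) : ℂ_[p]) φ := by
    refine hGD.2.2.2 a _ ?_ hϖπ0 ?_
    · rw [sub_self, norm_zero]
      exact hGD.1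
    · rw [hc]
      exact hlt
  obtain ⟨B, hB, hex⟩ := hEXI p n hPP K a _ hϖπ0 (φ.map C) hCT
  obtain ⟨hac, hfq, -, hdiv⟩ := hRFA p
  haveI := hac
  haveI : Infinite (RF p) := inferInstance
  obtain ⟨w, hw⟩ : ∃ w, w ∉ B := hB.infinite_compl.nonempty
  obtain ⟨f₁, hf₁, hwf⟩ := hfq w
  have hle : Fq p f₁ ≤ Fq p (f * f₁) :=
    (hdiv f₁ (f * f₁) hf₁ (Nat.mul_pos hLF.fpos hf₁)).2 (dvd_mul_left _ _)
  obtain ⟨π', hπ'⟩ : ∃ π' : ℂ_[p], π' ^ (4 * n + 2) = π :=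
    IsAlgClosed.exists_pow_nat_eq π (by omega)
  obtain ⟨E', hEE', hLF'⟩ := hRAMX p E π f hLF (f * f₁) (4 * n + 2) π' (dvd_mul_right _ _)
    (Nat.mul_pos hLF.fpos hf₁) (by omega) hπ'
  have hnorm : ‖π'‖ ^ (4 * n + 2) = ‖π‖ := by rw [← norm_pow, hπ']
  obtain ⟨τ, hτE, hτA, hτ1, hτ2, hτ3⟩ := hex E π f hLF hE₀ haE
    (by rw [hc]; exact mul_mem hϖE hLF.mem) E' π' (f * f₁) (4 * n + 2) hLF' hEE' (by omega)
    (dvd_refl _) hnorm w (hle hwf) hw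
  refine ⟨E', π', f * f₁, hLF', hEE', hnorm, τ, hτE, hτA, ?_, ?_⟩
  · rw [hc, norm_div, div_le_one (norm_pos_iff.2 (mul_ne_zero hϖ0 hπ0))] at hτ1
    exact lt_of_le_of_lt hτ1 hlt
  · have hsp : sp w (φ.map C) = φ := by
      unfold sp
      rw [Polynomial.map_map]
      have h1 : (evalRingHom w).comp C = RingHom.id (RF p) := by
        ext x
        simp
      rw [h1, Polynomial.map_id]
    rw [hsp] at hτ3
    exact hτ3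

theorem l5a_unitstep (hL4 : ST_L4) (hSPL : ST_SPL) (hEXI : ST_EXI) (hRAMX : ST_RAMX)
    (hRFA : ST_RFA) (hEVH : ST_EVH) (hRDU : ST_RDU) (hORD : ST_ORD) (hOVF : ST_OVF)
    {n : ℕ} (hPP : PP p n) (K : KD p n) (a ϖ : K.A) (φ : Polynomial (RF p)) (hϖ : ϖ ≠ 0)
    (hGD : GD K a ‖(ϖ : ℂ_[p])‖ φ) (E : IntermediateField ℚ_[p] ℂ_[p])
    (hfin : FiniteDimensional ℚ_[p] E) (hE₀ : K.E₀ ≤ E) (haE : (a : ℂ_[p]) ∈ E)
    (hϖE : (ϖ : ℂ_[p]) ∈ E) (i j : ℕ) (hi : φ.eval (i : RF p) ≠ 0) (hj : φ.eval (j : RF p) ≠ 0)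
    (π : ℂ_[p]) (hπA : π ∈ K.A) (f : ℕ) (hLF : LF E π f) (r : ℕ) :
    ∃ (κ : ℂ_[p]) (g : ℕ → ℂ_[p]), κ ∈ E ∧ ‖κ‖ = 1 ∧ g 0 = 1 ∧ (∀ k, g k ∈ E ∧ ‖g k‖ ≤ 1) ∧
      ∀ E' : IntermediateField ℚ_[p] ℂ_[p], FiniteDimensional ℚ_[p] E' → E ≤ E' → ∀ τ ∈ E',
        τ ∉ K.A → ‖τ - a‖ < ‖(ϖ : ℂ_[p])‖ → (K.χ τ).eval (i : ℂ_[p]) ≠ 0 →
        (K.χ τ).eval (j : ℂ_[p]) ≠ 0 → ∃ W ∈ E',
          (K.χ τ).eval (i : ℂ_[p]) / (K.χ τ).eval (j : ℂ_[p]) =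
            κ * (∑' k, g k * ((τ - a) / ϖ) ^ k) * W ^ (r.factorial) := by
  have hϖ0 : (ϖ : ℂ_[p]) ≠ 0 := fun h => hϖ (Subtype.ext h)
  have hπ0 : π ≠ 0 := norm_pos_iff.1 hLF.pos
  obtain ⟨κ, g, hκE, hκ0, hg0, hgk, hstep⟩ := l5a_step hL4 hSPL hEVH hORD hOVF hPP K a ϖ φ hϖ hGD
    E hfin hE₀ haE hϖE i j hi hj ((4 * n + 2) * r.factorial)
    (Nat.mul_pos (by omega) (Nat.factorial_pos r))
  obtain ⟨E₁, π₁, f₁, hLF₁, hEE₁, hπ₁, τ, hτE, hτA, hτ, hred⟩ :=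
    l5a_point hEXI hRAMX hRFA hPP K a ϖ φ hϖ hGD E hE₀ haE hϖE π hπA f hLF
  have hn : ∀ i : ℕ, ‖(i : ℂ_[p])‖ ≤ 1 := fun i => (mem_OO _).1 (natCast_mem (OO p) i)
  have hri : φ.eval (res (i : ℂ_[p])) ≠ 0 := by rw [res_natCast]; exact hi
  have hrj : φ.eval (res (j : ℂ_[p])) ≠ 0 := by rw [res_natCast]; exact hj
  obtain ⟨hxj, hle1, -⟩ := (hRDU p (K.χ τ)).2.2.2.2 φ (j : ℂ_[p]) (i : ℂ_[p]) hred (hn j) (hn i) hrj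
  obtain ⟨hxi, hle2, -⟩ := (hRDU p (K.χ τ)).2.2.2.2 φ (i : ℂ_[p]) (j : ℂ_[p]) hred (hn i) (hn j) hri
  have hnn : ‖(K.χ τ).eval (i : ℂ_[p])‖ = ‖(K.χ τ).eval (j : ℂ_[p])‖ := le_antisymm hle1 hle2
  obtain ⟨W, hWE, hW0, hW⟩ := hstep E₁ hLF₁.fin hEE₁ τ hτE hτA hτ hxi hxj
  have hy : ‖(τ - a) / (ϖ : ℂ_[p])‖ < 1 := by
    rw [norm_div, div_lt_one (norm_pos_iff.2 hϖ0)]
    exact hτ
  have hu := (l5a_unit g hg0 (fun k => (hgk k).2) _ hy).1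
  have hprod : ‖κ‖ * ‖W‖ ^ ((4 * n + 2) * r.factorial) = 1 := by
    have h1 := congrArg norm hW
    rw [norm_mul, norm_mul, norm_mul, norm_pow, hu, mul_one, hnn] at h1
    have h2 : (‖κ‖ * ‖W‖ ^ ((4 * n + 2) * r.factorial)) * ‖(K.χ τ).eval (j : ℂ_[p])‖ =
        1 * ‖(K.χ τ).eval (j : ℂ_[p])‖ := by
      rw [one_mul]
      exact h1.symm
    exact mul_right_cancel₀ (norm_ne_zero_iff.2 hxj) h2
  obtain ⟨s, hs⟩ := hLF.val κ hκE hκ0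
  obtain ⟨t, ht⟩ := hLF₁.val W hWE hW0
  have hexp : s = -(t * (r.factorial : ℤ)) := by
    have h1 : ‖π₁‖ ^ (((4 * n + 2 : ℕ) : ℤ) * s + t * (((4 * n + 2) * r.factorial : ℕ) : ℤ)) = 1 := by
      rw [zpow_add₀ hLF₁.pos.ne', zpow_mul, zpow_mul, zpow_natCast, zpow_natCast, hπ₁, ← hs, ← ht]
      exact hprod
    rw [zpow_eq_one_iff_right₀ hLF₁.pos.le hLF₁.lt.ne] at h1
    push_cast at h1
    have h2 : (4 * (n : ℤ) + 2) * (s + t * (r.factorial : ℤ)) = 0 := by linear_combination h1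
    have h3 : (4 * (n : ℤ) + 2) ≠ 0 := by omega
    have h4 : s + t * (r.factorial : ℤ) = 0 := (mul_eq_zero.1 h2).resolve_left h3
    linarith
  refine ⟨κ * π ^ (t * (r.factorial : ℤ)), g, mul_mem hκE (zpow_mem hLF.mem _), ?_, hg0, hgk, ?_⟩
  · rw [norm_mul, norm_zpow, hs, hexp, ← zpow_add₀ hLF.pos.ne', neg_add_cancel, zpow_zero]
  · intro E' hfin' hEE' σ hσE hσA hσ hyi hyj
    obtain ⟨V, hVE, hV0, hV⟩ := hstep E' hfin' hEE' σ hσE hσA hσ hyi hyj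
    refine ⟨π ^ (-t) * V ^ (4 * n + 2), mul_mem (zpow_mem (hEE' hLF.mem) _) (pow_mem hVE _), ?_⟩
    rw [div_eq_iff hyj, hV]
    have h1 : π ^ (t * (r.factorial : ℤ)) * (π ^ (-t) * V ^ (4 * n + 2)) ^ r.factorial =
        V ^ ((4 * n + 2) * r.factorial) := by
      rw [mul_pow, ← pow_mul, ← zpow_natCast (π ^ (-t)), ← zpow_mul, ← mul_assoc,
        ← zpow_add₀ hπ0]
      have h2 : t * (r.factorial : ℤ) + -t * (r.factorial : ℤ) = 0 := by ring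
      rw [h2, zpow_zero, one_mul]
    rw [← h1]
    ring

end l5a

/-- L5A: quotients of values of `χ τ` on a good disc are analytic -/
theorem st_L5A (hL4 : ST_L4) (hSPL : ST_SPL) (hCPT : ST_CPT) (hEXI : ST_EXI) (hRAMX : ST_RAMX)
    (hLFX : ST_LFX) (hRFA : ST_RFA) (hEVH : ST_EVH) (hRDU : ST_RDU) (hORD : ST_ORD)
    (hOVF : ST_OVF) : ST_L5A := by
  intro p n hp hPP K a ϖ φ hϖ hGD E hfin hE₀ haE hϖE i j hi hj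
  have hϖ0 : (ϖ : ℂ_[p]) ≠ 0 := fun h => hϖ (Subtype.ext h)
  obtain ⟨-, π, hπA, f, hLF⟩ := hLFX p K.A K.acl E hfin
  choose κ g hκE hκ1 hg0 hgk hstep using
    l5a_unitstep hL4 hSPL hEXI hRAMX hRFA hEVH hRDU hORD hOVF hPP K a ϖ φ hϖ hGD E hfin hE₀ haE
      hϖE i j hi hj π hπA f hLF
  obtain ⟨κ₀, g₀, hκ₀E, hκ₀1, hg₀0, hg₀k, hlim⟩ := hCPT p E hfin κ g
    (fun r => ⟨hκE r, hκ1 r⟩) hg0 hgk
  have key : ∀ E' : IntermediateField ℚ_[p] ℂ_[p], FiniteDimensional ℚ_[p] E' → E ≤ E' →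
      ∀ τ ∈ E', τ ∉ K.A → ‖τ - a‖ < ‖(ϖ : ℂ_[p])‖ → (K.χ τ).eval (i : ℂ_[p]) ≠ 0 →
        (K.χ τ).eval (j : ℂ_[p]) ≠ 0 →
          (K.χ τ).eval (i : ℂ_[p]) / (K.χ τ).eval (j : ℂ_[p]) =
            κ₀ * (∑' k, g₀ k * ((τ - a) / ϖ) ^ k) := by
    intro E' hfin' hEE' τ hτE hτA hτ hxi hxj
    have hcoeff := K.χE E' hfin' (hE₀.trans hEE') τ hτE hτA
    have heval : ∀ i : ℕ, (K.χ τ).eval (i : ℂ_[p]) ∈ E' := by
      intro i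
      rw [eval_eq_sum_range]
      refine sum_mem ?_
      intro k _
      exact mul_mem (hcoeff k) (pow_mem (natCast_mem E' i) k)
    have hch : ∀ r, ∃ W ∈ E', (K.χ τ).eval (i : ℂ_[p]) / (K.χ τ).eval (j : ℂ_[p]) =
        κ r * (∑' k, g r k * ((τ - a) / ϖ) ^ k) * W ^ (r.factorial) :=
      fun r => hstep r E' hfin' hEE' τ hτE hτA hτ hxi hxj
    choose W hWE hW using hch
    refine hlim E' hfin' _ (div_mem (heval i) (heval j)) (div_ne_zero hxi hxj)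
      ((τ - a) / (ϖ : ℂ_[p])) ?_ W hWE hW
    rw [norm_div, div_lt_one (norm_pos_iff.2 hϖ0)]
    exact hτ
  refine ⟨κ₀, g₀, hκ₀E, hκ₀1, ?_, hg₀0, hg₀k, ?_⟩
  · obtain ⟨E₁, π₁, f₁, hLF₁, hEE₁, hπ₁, τ, hτE, hτA, hτ, hred⟩ :=
      l5a_point hEXI hRAMX hRFA hPP K a ϖ φ hϖ hGD E hE₀ haE hϖE π hπA f hLF
    have hn : ∀ i : ℕ, ‖(i : ℂ_[p])‖ ≤ 1 := fun i => (mem_OO _).1 (natCast_mem (OO p) i)
    have hri : φ.eval (res (i : ℂ_[p])) ≠ 0 := by rw [res_natCast]; exact hi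
    have hrj : φ.eval (res (j : ℂ_[p])) ≠ 0 := by rw [res_natCast]; exact hj
    obtain ⟨hxj, -, hq⟩ :=
      (hRDU p (K.χ τ)).2.2.2.2 φ (j : ℂ_[p]) (i : ℂ_[p]) hred (hn j) (hn i) hrj
    obtain ⟨hxi, -, -⟩ :=
      (hRDU p (K.χ τ)).2.2.2.2 φ (i : ℂ_[p]) (j : ℂ_[p]) hred (hn i) (hn j) hri
    have h1 := key E₁ hLF₁.fin hEE₁ τ hτE hτA hτ hxi hxj
    have hy : ‖(τ - a) / (ϖ : ℂ_[p])‖ < 1 := by
      rw [norm_div, div_lt_one (norm_pos_iff.2 hϖ0)]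
      exact hτ
    have hu := l5a_unit g₀ hg₀0 (fun k => (hg₀k k).2) _ hy
    rw [h1, res_mul hκ₀1.le hu.1.le, hu.2, mul_one, res_natCast, res_natCast] at hq
    exact hq
  · intro τ hτalg hτA hτ hxi hxj
    haveI := hfin
    haveI : FiniteDimensional ℚ_[p] (IntermediateField.adjoin ℚ_[p] {τ}) :=
      IntermediateField.adjoin.finiteDimensional hτalg.isIntegral
    have hfin' : FiniteDimensional ℚ_[p]
        (E ⊔ IntermediateField.adjoin ℚ_[p] {τ} : IntermediateField ℚ_[p] ℂ_[p]) :=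
      IntermediateField.finiteDimensional_sup _ _
    have hτE : τ ∈ (E ⊔ IntermediateField.adjoin ℚ_[p] {τ} : IntermediateField ℚ_[p] ℂ_[p]) :=
      (le_sup_right : IntermediateField.adjoin ℚ_[p] {τ} ≤ E ⊔ _)
        (IntermediateField.mem_adjoin_simple_self ℚ_[p] τ)
    have h1 := key _ hfin' le_sup_left τ hτE hτA hτ hxi hxj
    rw [div_eq_iff hxj] at h1
    exact h1

end Pool.Agent.Helper60.FF
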