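import Pool.Agent.Helper60.FF.DefsA

/-!
# Module TDEF: the solution of the basic system depends rationally on the parameter
-/

set_option autoImplicit false

namespace Pool.Agent.Helper60.FF

open Polynomial

section Ker

variable {F₁ F : Type} [Field F₁] [Field F] [Algebra F₁ F]

/-- A matrix over `F₁[y]` which has a kernel at infinitely many points has a kernel. -/
theorem tdef_ker {ι κ : Type} [Fintype ι] [Fintype κ] (M : ι → κ → F₁[X])
    (h : {w : F | ∃ v : κ → F, v ≠ 0 ∧ ∀ i, ∑ j, aeval w (M i j) * v j = 0}.Infinite) :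
    ∃ v : κ → F₁[X], v ≠ 0 ∧ ∀ i, ∑ j, M i j * v j = 0 := by
  classical
  have hinj : Function.Injective (algebraMap F₁[X] (FractionRing F₁[X])) :=
    IsFractionRing.injective _ _
  set Mk : Matrix ι κ (FractionRing F₁[X]) :=
    fun i j => algebraMap F₁[X] (FractionRing F₁[X]) (M i j) with hMk
  by_cases hk : LinearMap.ker (Matrix.toLin' Mk) = ⊥
  · exfalso
    obtain ⟨g, hg⟩ := LinearMap.exists_leftInverse_of_injective _ hk
    have hL : LinearMap.toMatrix' g * Mk = 1 := by
      have h1 := congrArg LinearMap.toMatrix' hg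
      rw [LinearMap.toMatrix'_comp, LinearMap.toMatrix'_toLin', LinearMap.toMatrix'_id] at h1
      exact h1
    obtain ⟨b, hb⟩ := IsLocalization.exist_integer_multiples_of_finite (nonZeroDivisors F₁[X])
      (fun x : κ × ι => LinearMap.toMatrix' g x.1 x.2)
    choose N hN using hb
    have hNM : ∀ i k, ∑ j, N (i, j) * M j k = if i = k then (b : F₁[X]) else 0 := by
      intro i k
      apply hinj
      rw [map_sum]
      have h1 : ∀ j, algebraMap F₁[X] (FractionRing F₁[X]) (N (i, j) * M j k)
          = algebraMap F₁[X] (FractionRing F₁[X]) (b : F₁[X])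
            * (LinearMap.toMatrix' g i j * Mk j k) := by
        intro j
        rw [map_mul, hN (i, j), Algebra.smul_def, mul_assoc]
      rw [Finset.sum_congr rfl (fun j _ => h1 j), ← Finset.mul_sum]
      have h2 : ∑ j, LinearMap.toMatrix' g i j * Mk j k
          = (1 : Matrix κ κ (FractionRing F₁[X])) i k := by
        rw [← hL, Matrix.mul_apply]
      rw [h2, Matrix.one_apply]
      split_ifs
      · rw [mul_one]
      · rw [mul_zero, map_zero]
    have hb0 : (b : F₁[X]) ≠ 0 := nonZeroDivisors.coe_ne_zero b
    apply hb0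
    have hbm : (b : F₁[X]).map (algebraMap F₁ F) = 0 := by
      apply Polynomial.eq_zero_of_infinite_isRoot
      refine h.mono ?_
      rintro w ⟨v, hv0, hv⟩
      show IsRoot _ w
      rw [IsRoot.def, eval_map_algebraMap]
      by_contra hbw
      apply hv0
      funext i
      have h3 : aeval w (b : F₁[X]) * v i = 0 := by
        calc aeval w (b : F₁[X]) * v i
            = ∑ k, (aeval w (if i = k then (b : F₁[X]) else 0)) * v k := by
              rw [Finset.sum_eq_single i]
              · rw [if_pos rfl]
              · intro k _ hk2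
                rw [if_neg (Ne.symm hk2), map_zero, zero_mul]
              · intro hcon
                exact absurd (Finset.mem_univ i) hcon
          _ = ∑ k, (∑ j, aeval w (N (i, j)) * aeval w (M j k)) * v k := by
              refine Finset.sum_congr rfl fun k _ => ?_
              rw [← hNM i k, map_sum]
              simp only [map_mul]
          _ = ∑ j, aeval w (N (i, j)) * ∑ k, aeval w (M j k) * v k := by
              simp only [Finset.sum_mul, Finset.mul_sum, mul_assoc]
              rw [Finset.sum_comm]
          _ = 0 := by simp only [hv, mul_zero, Finset.sum_const_zero]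
      exact (mul_eq_zero.1 h3).resolve_left hbw
    exact (Polynomial.map_eq_zero_iff (algebraMap F₁ F).injective).1 hbm
  · obtain ⟨v, hv, hv0⟩ := Submodule.exists_mem_ne_zero_of_ne_bot hk
    obtain ⟨b, hb⟩ := IsLocalization.exist_integer_multiples_of_finite (nonZeroDivisors F₁[X]) v
    choose u hu using hb
    have hb0 : (b : F₁[X]) ≠ 0 := nonZeroDivisors.coe_ne_zero b
    refine ⟨u, ?_, ?_⟩
    · intro hu0
      apply hv0
      funext i
      have h1 := hu i
      rw [hu0, Pi.zero_apply, map_zero, Algebra.smul_def] at h1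
      have h2 : algebraMap F₁[X] (FractionRing F₁[X]) (b : F₁[X]) ≠ 0 :=
        (map_ne_zero_iff _ hinj).2 hb0
      exact (mul_eq_zero.1 h1.symm).resolve_left h2
    · intro i
      apply hinj
      rw [map_sum, map_zero]
      have h1 : ∀ j, algebraMap F₁[X] (FractionRing F₁[X]) (M i j * u j)
          = algebraMap F₁[X] (FractionRing F₁[X]) (b : F₁[X]) * (Mk i j * v j) := by
        intro j
        rw [map_mul, hu j, Algebra.smul_def]
        ring
      rw [Finset.sum_congr rfl (fun j _ => h1 j), ← Finset.mul_sum]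
      have h2 : ∑ j, Mk i j * v j = 0 := by
        have h3 : Matrix.toLin' Mk v = 0 := hv
        have h4 := congrFun h3 i
        rw [Matrix.toLin'_apply] at h4
        exact h4
      rw [h2, mul_zero]

end Ker

section Poly

variable {A : Type} [CommRing A] {n : ℕ}

/-- The polynomial with given coefficients. -/
noncomputable def tdef_poly (c : Fin (n + 1) → A) : A[X] :=
  ∑ j : Fin (n + 1), monomial (j : ℕ) (c j)

theorem tdef_poly_eval (c : Fin (n + 1) → A) (x : A) :
    (tdef_poly c).eval x = ∑ j, c j * x ^ (j : ℕ) := by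
  unfold tdef_poly
  rw [eval_finsetSum]
  simp only [eval_monomial]

theorem tdef_poly_deriv (c : Fin (n + 1) → A) (x : A) :
    (derivative (tdef_poly c)).eval x = ∑ j, c j * ((j : ℕ) : A) * x ^ ((j : ℕ) - 1) := by
  unfold tdef_poly
  rw [derivative_sum, eval_finsetSum]
  simp only [derivative_monomial, eval_monomial]

theorem tdef_poly_natDegree (c : Fin (n + 1) → A) : (tdef_poly c).natDegree ≤ n := by
  unfold tdef_poly
  refine natDegree_sum_le_of_forall_le _ _ (fun j _ => ?_)
  exact (natDegree_monomial_le _).trans (Nat.lt_succ_iff.1 j.2)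

theorem tdef_poly_coeff (χ : A[X]) (h : χ.natDegree ≤ n) :
    tdef_poly (fun j : Fin (n + 1) => χ.coeff j) = χ := by
  unfold tdef_poly
  rw [← Finset.sum_range (fun j => monomial j (χ.coeff j))]
  exact (χ.as_sum_range' (n + 1) (Nat.lt_succ_iff.2 h)).symm

theorem tdef_coeff_poly (c : Fin (n + 1) → A) (j : Fin (n + 1)) : (tdef_poly c).coeff j = c j := by
  unfold tdef_poly
  rw [finsetSum_coeff]
  simp only [coeff_monomial]
  rw [Finset.sum_eq_single j]
  · rw [if_pos rfl]
  · intro b _ hb
    rw [if_neg]
    intro h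
    exact hb (Fin.ext h)
  · intro h
    exact absurd (Finset.mem_univ j) h

/-- The rows of the linear system. -/
def tdef_M (n : ℕ) (b : Bool) (V U x : A) (col : Bool × Fin (n + 1)) : A :=
  if col.1 = true then V * x ^ (col.2 : ℕ)
  else (if b = true then V * (((col.2 : ℕ) : A) * x ^ ((col.2 : ℕ) - 1)) else 0)
    - U * x ^ (col.2 : ℕ)

theorem tdef_row (b : Bool) (V U x : A) (v : Bool × Fin (n + 1) → A) :
    ∑ col, tdef_M n b V U x col * v col = V * (tdef_poly fun j => v (true, j)).eval x
      + (if b = true then V * (derivative (tdef_poly fun j => v (false, j))).eval x else 0)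
      - U * (tdef_poly fun j => v (false, j)).eval x := by
  rw [Fintype.sum_prod_type, Fintype.sum_bool, tdef_poly_eval, tdef_poly_deriv, tdef_poly_eval]
  cases b
  · simp only [tdef_M, if_true, Bool.false_eq_true, if_false, add_zero, zero_sub, Finset.mul_sum]
    rw [← Finset.sum_add_distrib, ← Finset.sum_sub_distrib]
    refine Finset.sum_congr rfl fun j _ => ?_
    ring
  · simp only [tdef_M, if_true, Bool.false_eq_true, if_false, Finset.mul_sum]
    rw [← Finset.sum_add_distrib, ← Finset.sum_add_distrib, ← Finset.sum_sub_distrib]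
    refine Finset.sum_congr rfl fun j _ => ?_
    ring

theorem tdef_M_map {B : Type} [CommRing B] (φ : A →+* B) (b : Bool) (V U x : A)
    (col : Bool × Fin (n + 1)) :
    φ (tdef_M n b V U x col) = tdef_M n b (φ V) (φ U) (φ x) col := by
  unfold tdef_M
  split_ifs <;> simp

end Poly

section Main

variable {F₁ F : Type} [Field F₁] [Field F] [Algebra F₁ F]

theorem tdef_fin {q : F₁[X]} (hq : q ≠ 0) : {w : F | aeval w q = 0}.Finite := by
  refine (q.rootSet_finite F).subset ?_
  intro w hw
  rw [mem_rootSet_of_ne hq]
  exact hw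

/-- The points over `F₁[y]`. -/
noncomputable def tdef_P (F₁ : Type) [Field F₁] (b : Bool) (i : ℕ) : F₁[X] :=
  (if b = true then X else 0) + (i : F₁[X])

theorem tdef_P_eval (w : F) (b : Bool) (i : ℕ) : aeval w (tdef_P F₁ b i) = pt w b i := by
  unfold tdef_P pt
  cases b <;> simp

theorem tdef_spA_eval (w : F) (T : Polynomial (Polynomial F₁)) (x : F₁[X]) :
    (spA w T).eval (aeval w x) = aeval w (T.eval x) := by
  unfold spA
  rw [eval_map]
  exact eval₂_at_apply (aeval w : F₁[X] →ₐ[F₁] F).toRingHom x

end Main

theorem st_TDEF (hU : ST_UNQL) : ST_TDEF := by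
  classical
  intro F₁ F _ _ _ p n hp hchar hnp U V hV hinf
  -- the exceptional set
  have hZ1 : {w : F | ∃ r : Bool × Fin (2 * n + 1), aeval w (V r.1 r.2) = 0}.Finite := by
    have h1 : {w : F | ∃ r : Bool × Fin (2 * n + 1), aeval w (V r.1 r.2) = 0}
        = ⋃ r : Bool × Fin (2 * n + 1), {w : F | aeval w (V r.1 r.2) = 0} := by
      ext w
      simp only [Set.mem_ofPred_eq, Set.mem_iUnion]
    rw [h1]
    exact Set.finite_iUnion fun r => tdef_fin (hV _ _)
  obtain ⟨v, hv0, hv⟩ := tdef_ker (F := F)
    (fun (r : Bool × Fin (2 * n + 1)) (col : Bool × Fin (n + 1)) =>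
      tdef_M n r.1 (V r.1 r.2) (U r.1 r.2) (tdef_P F₁ r.1 r.2) col) (by
    refine (hinf.sdiff hZ1).mono ?_
    rintro w ⟨⟨χ, ψ, hχ, hdχ, hdψ, hS⟩, hw⟩
    have hw' : ∀ r : Bool × Fin (2 * n + 1), aeval w (V r.1 r.2) ≠ 0 := fun r hr => hw ⟨r, hr⟩
    refine ⟨fun col => if col.1 = true then ψ.coeff col.2 else χ.coeff col.2, ?_, ?_⟩
    · intro h0
      apply hχ
      rw [← tdef_poly_coeff χ hdχ]
      have h1 : (fun j : Fin (n + 1) => χ.coeff j) = fun _ => 0 := by
        funext j
        exact congrFun h0 (false, j)
      rw [h1]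
      unfold tdef_poly
      simp
    · rintro r
      have h1 : ∀ col : Bool × Fin (n + 1), aeval w (tdef_M n r.1 (V r.1 r.2) (U r.1 r.2)
          (tdef_P F₁ r.1 r.2) col) = tdef_M n r.1 (aeval w (V r.1 r.2)) (aeval w (U r.1 r.2))
            (pt w r.1 r.2) col := by
        intro col
        have h2 := tdef_M_map (aeval w : F₁[X] →ₐ[F₁] F).toRingHom r.1 (V r.1 r.2) (U r.1 r.2)
          (tdef_P F₁ r.1 r.2) col
        have h3 : (aeval w : F₁[X] →ₐ[F₁] F).toRingHom (tdef_P F₁ r.1 r.2) = pt w r.1 r.2 :=
          tdef_P_eval w r.1 r.2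
        rw [h3] at h2
        exact h2
      simp only [h1]
      rw [tdef_row]
      have e1 : (tdef_poly fun j : Fin (n + 1) => (if (true, j).1 = true then
          ψ.coeff ((true, j) : Bool × Fin (n + 1)).2 else
          χ.coeff ((true, j) : Bool × Fin (n + 1)).2)) = ψ := by
        have e3 : (fun j : Fin (n + 1) => (if (true, j).1 = true then
          ψ.coeff ((true, j) : Bool × Fin (n + 1)).2 else
          χ.coeff ((true, j) : Bool × Fin (n + 1)).2)) = fun j : Fin (n + 1) => ψ.coeff j := by
          funext j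
          simp
        rw [e3]
        exact tdef_poly_coeff ψ hdψ
      have e2 : (tdef_poly fun j : Fin (n + 1) => (if (false, j).1 = true then
          ψ.coeff ((false, j) : Bool × Fin (n + 1)).2 else
          χ.coeff ((false, j) : Bool × Fin (n + 1)).2)) = χ := by
        have e3 : (fun j : Fin (n + 1) => (if (false, j).1 = true then
          ψ.coeff ((false, j) : Bool × Fin (n + 1)).2 else
          χ.coeff ((false, j) : Bool × Fin (n + 1)).2)) = fun j : Fin (n + 1) => χ.coeff j := by
          funext j
          simp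
        rw [e3]
        exact tdef_poly_coeff χ hdχ
      rw [e1, e2]
      have h4 := hS r.1 r.2 (Nat.lt_succ_iff.1 r.2.2)
      have h5 : aeval w (V r.1 r.2) * (ψ.eval (pt w r.1 r.2) +
          (if r.1 = true then 1 * (derivative χ).eval (pt w r.1 r.2) else 0))
          = aeval w (U r.1 r.2) * χ.eval (pt w r.1 r.2) := by
        rw [h4]
        have := hw' r
        field_simp
      rw [← h5]
      split_ifs <;> ring)
  -- the polynomials
  set T : Polynomial (Polynomial F₁) := tdef_poly fun j : Fin (n + 1) => v (false, j) with hT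
  set T' : Polynomial (Polynomial F₁) := tdef_poly fun j : Fin (n + 1) => v (true, j) with hT'
  have hrow : ∀ (b : Bool) (i : ℕ), i ≤ 2 * n → V b i * T'.eval (tdef_P F₁ b i)
      + (if b = true then V b i * (derivative T).eval (tdef_P F₁ b i) else 0)
      - U b i * T.eval (tdef_P F₁ b i) = 0 := by
    intro b i hi
    have h1 := hv (b, ⟨i, Nat.lt_succ_iff.2 hi⟩)
    rw [tdef_row] at h1
    exact h1
  have hT0 : T ≠ 0 := by
    intro h0
    have h1 : T' = 0 := by
      apply eq_zero_of_natDegree_lt_card_of_eval_eq_zero T'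
        (f := fun i : Fin (2 * n + 1) => ((i : ℕ) : F₁[X]))
      · intro i j hij
        have h2 := congrArg (aeval (0 : F) : F₁[X] →ₐ[F₁] F) hij
        simp only [map_natCast] at h2
        apply Fin.ext
        have h3 := CharP.natCast_injOn_Iio F p (show (i : ℕ) ∈ Set.Iio p from by
          have := i.2
          rw [Set.mem_Iio]
          omega) (show (j : ℕ) ∈ Set.Iio p from by
          have := j.2
          rw [Set.mem_Iio]
          omega) h2
        exact h3
      · intro i
        have h2 := hrow false i (Nat.lt_succ_iff.1 i.2)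
        rw [h0] at h2
        simp only [Bool.false_eq_true, if_false, add_zero, eval_zero, mul_zero, sub_zero] at h2
        have h3 := (mul_eq_zero.1 h2).resolve_left (hV _ _)
        have h4 : tdef_P F₁ false i = ((i : ℕ) : F₁[X]) := by
          unfold tdef_P
          simp
        rw [h4] at h3
        exact h3
      · rw [Fintype.card_fin]
        have := tdef_poly_natDegree (fun j : Fin (n + 1) => v (true, j))
        rw [← hT'] at this
        omega
    apply hv0
    funext col
    obtain ⟨c, j⟩ := col
    cases c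
    · have h2 := tdef_coeff_poly (fun j : Fin (n + 1) => v (false, j)) j
      rw [← hT, h0, coeff_zero] at h2
      exact h2.symm
    · have h2 := tdef_coeff_poly (fun j : Fin (n + 1) => v (true, j)) j
      rw [← hT', h1, coeff_zero] at h2
      exact h2.symm
  refine ⟨T, hT0, tdef_poly_natDegree _, ?_⟩
  -- zeros of the specialization
  have hZ2 : {w : F | spA w T = 0}.Finite := by
    have h1 : ∃ j, T.coeff j ≠ 0 := by
      by_contra hcon
      apply hT0
      ext1 j
      rw [coeff_zero]
      by_contra h
      exact hcon ⟨j, h⟩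
    obtain ⟨j, hj⟩ := h1
    refine (tdef_fin (F := F) hj).subset ?_
    intro w hw
    have h2 : spA w T = 0 := hw
    have h3 : (spA w T).coeff j = aeval w (T.coeff j) := by
      unfold spA
      rw [coeff_map]
      rfl
    rw [h2, coeff_zero] at h3
    exact h3.symm
  refine (hZ1.union hZ2).subset ?_
  rintro w ⟨χ, ψ, hχ, hS, hno⟩
  by_contra hw
  rw [Set.mem_union, not_or] at hw
  obtain ⟨hw1, hw2⟩ := hw
  have hw1' : ∀ (b : Bool) (i : ℕ), i ≤ 2 * n → aeval w (V b i) ≠ 0 :=
    fun b i hi h0 => hw1 ⟨(b, ⟨i, Nat.lt_succ_iff.2 hi⟩), h0⟩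
  have hw2' : spA w T ≠ 0 := hw2
  have hSy : Sy n w 1 (fun b i => aeval w (U b i) / aeval w (V b i)) (spA w T) (spA w T') := by
    refine ⟨?_, ?_, ?_⟩
    · exact natDegree_map_le.trans (tdef_poly_natDegree _)
    · exact natDegree_map_le.trans (tdef_poly_natDegree _)
    · intro b i hi
      have h1 := congrArg (aeval w : F₁[X] →ₐ[F₁] F) (hrow b i hi)
      have h2 : derivative (spA w T) = spA w (derivative T) := by
        unfold spA
        rw [derivative_map]
      rw [h2, ← tdef_P_eval (F₁ := F₁) w b i, tdef_spA_eval, tdef_spA_eval, tdef_spA_eval]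
      have h3 := hw1' b i hi
      rw [map_sub, map_add, map_mul, map_mul, map_zero, sub_eq_zero] at h1
      rw [div_mul_eq_mul_div, eq_div_iff h3, ← h1]
      cases b
      · simp only [Bool.false_eq_true, if_false, map_zero, add_zero]
        ring
      · simp only [if_true, map_mul]
        ring
  obtain ⟨s, hs, -⟩ := hU F p n hp hchar hnp w 1 _ (spA w T) (spA w T') χ ψ one_ne_zero hSy hS hw2'
  apply hno
  refine ⟨s, ?_, hs⟩
  intro h0
  rw [h0, C_0, zero_mul] at hs
  exact hχ hs

end Pool.Agent.Helper60.FF
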